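import Pool.Agent.Helper72.MK.Goals

/-! Packet MK-MAIN: assembly of the theorem `2/3 ≤ V(K) V((K-K)°)` in `ℝ³`. -/

open MeasureTheory Set Filter Topology
open scoped ENNReal Quaternion
open Pool.Agent.Helper47.AQ Pool.Agent.Helper72.MK

noncomputable section

namespace Pool.Agent.Helper95.MK

theorem main (hTT : TTStmt) (hTAU : TAUStmt) (hEQV : EQVStmt) (hCTZ : CTZStmt)
    (hGEZ : GEZStmt) (hMID : MIDStmt) : MAINStmt := by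
  intro K hK
  by_contra hlt
  push Not at hlt
  have hF0 : 0 ≤ F K := mul_nonneg ENNReal.toReal_nonneg ENNReal.toReal_nonneg
  obtain ⟨δ, hδ0, hδ1, hδ⟩ : ∃ δ : ℝ, 0 ≤ δ ∧ δ < 1 ∧ F K < δ * (2 / 3) :=
    ⟨(F K * (3 / 2) + 1) / 2, by linarith, by linarith, by linarith⟩
  obtain ⟨τ, hτc, hτ⟩ := hTAU K hK
  obtain ⟨c, hc, hc'⟩ := hMID K hK δ hδ0 hδ1
  obtain ⟨hzpc, hzmc⟩ := hCTZ K τ hK hτc fun g hg => (hτ g hg).1
  have hp : ∀ g ∈ SS ℍ[ℝ], δ • zp K (τ g) g ∈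
      {z : Fin 3 → ℝ | ∃ x ∈ K, ∃ y ∈ K, z = δ • (x - y)} := by
    intro g hg
    obtain ⟨x, hx, y, hy, hxy⟩ := (hGEZ K hK (τ g) (hτ g hg).1 g hg (hτ g hg).2.1).1
    exact ⟨x, hx, y, hy, by rw [hxy]⟩
  have hm : ∀ g ∈ SS ℍ[ℝ], δ • zm K (τ g) g ∈
      {z : Fin 3 → ℝ | ∃ x ∈ K, ∃ y ∈ K, z = δ • (x - y)} := by
    intro g hg
    obtain ⟨x, hx, y, hy, hxy⟩ := (hGEZ K hK (τ g) (hτ g hg).1 g hg (hτ g hg).2.1).2.1
    exact ⟨x, hx, y, hy, by rw [hxy]⟩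
  obtain ⟨g, hg, hD⟩ := hTT (fun g => c (δ • zp K (τ g) g) - c (δ • zm K (τ g) g))
    (by
      refine ContinuousOn.sub ?_ ?_
      · exact hc.comp (hzpc.const_smul δ) fun g hg => hp g hg
      · exact hc.comp (hzmc.const_smul δ) fun g hg => hm g hg)
    (by
      intro g hg
      obtain ⟨e1, e2, _, _⟩ := hEQV K (τ g) (hτ g hg).1 g hg
      rw [(hτ g hg).2.2.1, e1, e2, smul_neg, (hc' _ (hp g hg)).1, neg_sub])
    (by
      intro g hg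
      obtain ⟨_, _, e3, e4⟩ := hEQV K (τ g) (hτ g hg).1 g hg
      rw [(hτ g hg).2.2.2, e3, e4, smul_neg, (hc' _ (hm g hg)).1])
  have hD' : c (δ • zp K (τ g) g) = c (δ • zm K (τ g) g) := sub_eq_zero.1 hD
  have h1 := hc' _ (hp g hg)
  have h2 := hc' _ (hm g hg)
  have h3 := (hGEZ K hK (τ g) (hτ g hg).1 g hg (hτ g hg).2.1).2.2 δ
    (c (δ • zp K (τ g) g)) hδ0 h1.2.1 h1.2.2 (by rw [hD']; exact h2.2.1)
    (by rw [hD']; exact h2.2.2)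
  linarith

end Pool.Agent.Helper95.MK
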